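import Mathlib
import Pool.Agent.X20.RestrictedParity

/-!
# MP_cb5b52_nt, Q1: the odd density need not tend to `1/2`

For the sequence `a_k = 2^{k-1} k!` (so `1, 4, 24, 192, ...`) we have `gcd = 1`, every prime
divides some term, and the odd density of `p_A(·, k)` is exactly `2^{1-k}` for every `k ≥ 1`.
-/

namespace Pool.Agent.Results.MP_cb5b52_nt.DensityToZero

open Filter Topology Pool.Agent.X20.RestrictedParity

theorem one_part (a : ℕ → ℕ) (ha : ∀ i, 0 < a i) (h0 : a 0 = 1) (n : ℕ) : v a 1 n = 1 := by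
  induction n with
  | zero =>
    rw [v_succ_of_lt a 0 0 (by rw [h0]; norm_num)]
    simp [v, pA_zero]
  | succ n ih =>
    have := v_succ_add a ha 0 n
    rw [h0] at this
    rw [zero_add] at this
    rw [this, ih]
    simp [v, pA_zero]

/-- the key induction: period `2 a_{k-1}` and exact number of odd values in a period -/
theorem key (a : ℕ → ℕ) (ha : ∀ i, 0 < a i) (h0 : a 0 = 1) (hdiv : ∀ k, 2 * a k ∣ a (k + 1))
    (k : ℕ) :
    (∀ n, v a (k + 1) (n + 2 * a k) = v a (k + 1) n) ∧
      ((Finset.range (2 * a k)).filter fun n => v a (k + 1) n = 1).card * 2 ^ k = 2 * a k := by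
  induction k with
  | zero =>
    refine ⟨fun n => ?_, ?_⟩
    · rw [one_part a ha h0, one_part a ha h0]
    · simp [one_part a ha h0]
  | succ k ih =>
    obtain ⟨hper, hcard⟩ := ih
    obtain ⟨q, hq⟩ := hdiv k
    -- periodicity of the previous one with period a (k+1)
    have hper' : ∀ n, v a (k + 1) (n + a (k + 1)) = v a (k + 1) n := by
      intro n
      rw [hq]
      clear hq
      induction q with
      | zero => simp
      | succ q ihq =>
        have e : n + 2 * a k * (q + 1) = (n + 2 * a k * q) + 2 * a k := by ring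
        rw [e, hper, ihq]
    have hadd : ∀ n, v a (k + 2) (n + a (k + 1)) = v a (k + 1) n + v a (k + 2) n := by
      intro n
      rw [v_succ_add a ha (k + 1) n, hper']
    have h2 : ∀ x : ZMod 2, x + x = 0 := by decide
    have hperiod : ∀ n, v a (k + 2) (n + 2 * a (k + 1)) = v a (k + 2) n := by
      intro n
      have e : n + 2 * a (k + 1) = (n + a (k + 1)) + a (k + 1) := by ring
      rw [e, hadd, hadd, hper', ← add_assoc, h2, zero_add]
    refine ⟨hperiod, ?_⟩
    -- values on the first half and second half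
    have hlow : ∀ n, n < a (k + 1) → v a (k + 2) n = v a (k + 1) n :=
      fun n hn => v_succ_of_lt a (k + 1) n hn
    have hhigh : ∀ n, n < a (k + 1) → v a (k + 2) (n + a (k + 1)) = 0 := by
      intro n hn
      rw [hadd, hlow n hn, h2]
    have hset : ((Finset.range (2 * a (k + 1))).filter fun n => v a (k + 2) n = 1) =
        (Finset.range (a (k + 1))).filter fun n => v a (k + 1) n = 1 := by
      ext n
      simp only [Finset.mem_filter, Finset.mem_range]
      constructor
      · rintro ⟨hn, h1⟩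
        by_cases hlt : n < a (k + 1)
        · exact ⟨hlt, by rw [← hlow n hlt]; exact h1⟩
        · exfalso
          obtain ⟨m, rfl⟩ : ∃ m, n = m + a (k + 1) := ⟨n - a (k + 1), by omega⟩
          rw [hhigh m (by omega)] at h1
          exact zero_ne_one h1
      · rintro ⟨hn, h1⟩
        exact ⟨by omega, by rw [hlow n hn]; exact h1⟩
    rw [hset]
    have hcnt := count_mul_period (fun n => v a (k + 1) n = 1) (2 * a k)
      (fun n => by rw [hper]) q
    rw [Nat.count_eq_card_filter_range] at hcnt
    have e : a (k + 1) = q * (2 * a k) := by rw [hq]; ring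
    rw [e, hcnt]
    calc q * ((Finset.range (2 * a k)).filter fun n => v a (k + 1) n = 1).card * 2 ^ (k + 1)
        = q * (((Finset.range (2 * a k)).filter fun n => v a (k + 1) n = 1).card * 2 ^ k) * 2 := by
          ring
      _ = 2 * (q * (2 * a k)) := by rw [hcard]; ring

theorem density (a : ℕ → ℕ) (ha : ∀ i, 0 < a i) (h0 : a 0 = 1)
    (hdiv : ∀ k, 2 * a k ∣ a (k + 1)) (k : ℕ) :
    HasOddDensity a (k + 1) ((1 / 2 : ℝ) ^ k) := by
  obtain ⟨hper, hcard⟩ := key a ha h0 hdiv k
  have hpos : 0 < 2 * a k := Nat.mul_pos (by norm_num) (ha k)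
  have hd := density_periodic (fun n => Odd (pA a (k + 1) n)) (2 * a k) hpos (fun n => by
    rw [odd_iff, odd_iff, hper])
  unfold HasOddDensity
  have hval : ((((Finset.range (2 * a k)).filter fun n => Odd (pA a (k + 1) n)).card : ℝ) /
      ((2 * a k : ℕ) : ℝ)) = (1 / 2 : ℝ) ^ k := by
    have hset : ((Finset.range (2 * a k)).filter fun n => Odd (pA a (k + 1) n)) =
        (Finset.range (2 * a k)).filter fun n => v a (k + 1) n = 1 :=
      Finset.filter_congr fun n _ => odd_iff a (k + 1) n
    rw [hset]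
    have hc : ((((Finset.range (2 * a k)).filter fun n => v a (k + 1) n = 1).card : ℕ) : ℝ)
        * 2 ^ k = ((2 * a k : ℕ) : ℝ) := by exact_mod_cast hcard
    have hposR : (0 : ℝ) < ((2 * a k : ℕ) : ℝ) := by exact_mod_cast hpos
    rw [div_eq_iff hposR.ne', ← hc, one_div, inv_pow]
    have : ((2 : ℝ) ^ k) ≠ 0 := by positivity
    field_simp
  rw [hval] at hd
  exact hd

/-- The sequence `a_k = 2^{k-1} k!`, `k ≥ 1`, listed as `a 0, a 1, ...`. -/
def a (i : ℕ) : ℕ := 2 ^ i * (i + 1).factorial

theorem a_pos (i : ℕ) : 0 < a i := Nat.mul_pos (by positivity) (Nat.factorial_pos _)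

theorem a_div (k : ℕ) : 2 * a k ∣ a (k + 1) := by
  refine ⟨k + 2, ?_⟩
  unfold a
  rw [Nat.factorial_succ (k + 1)]
  ring

/-- **Negative answer to Q1.**  The sequence `a_k = 2^{k-1} k!` (`k ≥ 1`) consists of positive
integers, its terms have greatest common divisor `1`, every prime (hence infinitely many primes)
divides one of its terms, and for every `k ≥ 1` the odd density of `p_A(·, k)` is exactly
`2^{-(k-1)}`; in particular these densities tend to `0` and not to `1/2`. -/
theorem result :
    ∃ a : ℕ → ℕ, (∀ i, 0 < a i) ∧ (∀ d : ℕ, (∀ i, d ∣ a i) → d = 1) ∧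
      {p : ℕ | p.Prime ∧ ∃ i, p ∣ a i}.Infinite ∧
      (∀ k : ℕ, HasOddDensity a (k + 1) ((1 / 2 : ℝ) ^ k)) ∧
      ∀ δ : ℕ → ℝ, (∀ k, 1 ≤ k → HasOddDensity a k (δ k)) →
        Tendsto δ atTop (𝓝 0) ∧ ¬ Tendsto δ atTop (𝓝 (1 / 2)) := by
  refine ⟨a, a_pos, ?_, ?_, fun k => density a a_pos (by norm_num [a]) a_div k, ?_⟩
  · intro d hd
    have := hd 0
    simpa [a] using this
  · refine Set.Infinite.mono ?_ Nat.infinite_setOfPred_prime
    intro p hp
    refine ⟨hp, p, ?_⟩
    exact Dvd.dvd.mul_left (Nat.dvd_factorial hp.pos (Nat.le_succ p)) _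
  · intro δ hδ
    have hval : ∀ k, δ (k + 1) = (1 / 2 : ℝ) ^ k := fun k =>
      tendsto_nhds_unique (hδ (k + 1) (by omega))
        (density a a_pos (by norm_num [a]) a_div k)
    have h0 : Tendsto δ atTop (𝓝 0) := by
      rw [← tendsto_add_atTop_iff_nat 1]
      simp only [hval]
      exact tendsto_pow_atTop_nhds_zero_of_lt_one (by norm_num) (by norm_num)
    refine ⟨h0, fun h => ?_⟩
    have := tendsto_nhds_unique h0 h
    norm_num at this

end Pool.Agent.Results.MP_cb5b52_nt.DensityToZero
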